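import Mathlib

set_option autoImplicit false

namespace Pool.Agent.Results.MP_8e2100_an.Punctured

open Set Metric Filter Topology MeasureTheory Complex
open scoped ENNReal

section Defs
variable {E : Type} [NormedAddCommGroup E] [NormedSpace ℂ E]

/-- Infinitesimal Kobayashi metric of `Ω` at `z` in direction `v`: the infimum of the `α > 0` such
that some holomorphic `φ` from the unit disc into `Ω` has `φ 0 = z` and `α φ'(0) = v`. -/
noncomputable def kobMetric (Ω : Set E) (z v : E) : ℝ≥0∞ :=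
  ⨅ (φ : ℂ → E) (_ : DifferentiableOn ℂ φ (ball 0 1)) (_ : MapsTo φ (ball 0 1) Ω) (_ : φ 0 = z)
    (α : ℝ) (_ : 0 < α) (_ : (α : ℂ) • deriv φ 0 = v), ENNReal.ofReal α

/-- `γ` is continuous on `[0,1]` and `C¹` on every closed subinterval with no break point (from a
finite set `S`) in its interior. -/
def PiecewiseC1 (γ : ℝ → E) : Prop :=
  ContinuousOn γ (Icc 0 1) ∧ ∃ S : Finset ℝ, ∀ a b : ℝ, 0 ≤ a → a < b → b ≤ 1 →
    (∀ s ∈ S, s ∉ Ioo a b) → ContDiffOn ℝ 1 γ (Icc a b)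

/-- Kobayashi distance: the infimum of the Kobayashi lengths of piecewise `C¹` curves in `Ω`. -/
noncomputable def kobDist (Ω : Set E) (z w : E) : ℝ≥0∞ :=
  ⨅ (γ : ℝ → E) (_ : PiecewiseC1 γ) (_ : MapsTo γ (Icc 0 1) Ω) (_ : γ 0 = z) (_ : γ 1 = w),
    ∫⁻ t in Icc (0 : ℝ) 1, kobMetric Ω (γ t) (deriv γ t)

/-- The Kobayashi ball `B(z,r)`. -/
def kobBall (Ω : Set E) (z : E) (r : ℝ) : Set E :=
  {w ∈ Ω | kobDist Ω z w < ENNReal.ofReal r}

end Defs

/-- the punctured disc -/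
def P : Set ℂ := {z | 0 < ‖z‖ ∧ ‖z‖ < 1}

lemma exp_mem {ζ : ℂ} (h : ζ.re < 0) : exp ζ ∈ P :=
  ⟨by simp [Complex.exp_ne_zero], by rw [Complex.norm_exp]; exact Real.exp_lt_one_iff.2 h⟩

lemma metric_le {ζ η : ℂ} {α : ℝ} (hα : 0 < α) (hζ : ζ.re < 0) (h : ‖η‖ ≤ α * -ζ.re) :
    kobMetric P (exp ζ) (exp ζ * η) ≤ ENNReal.ofReal α := by
  have hd : HasDerivAt (fun l : ℂ => exp (ζ + l * (η / α))) (exp ζ * (η / α)) 0 := by
    simpa using (((hasDerivAt_id (0 : ℂ)).mul_const (η / α)).const_add ζ).cexp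
  refine iInf_le_of_le (fun l : ℂ => exp (ζ + l * (η / α))) <| iInf_le_of_le (by fun_prop) <|
    iInf_le_of_le (fun l hl => exp_mem ?_) <| iInf_le_of_le (by simp) <| iInf_le_of_le α <|
    iInf_le_of_le hα <| iInf_le_of_le ?_ le_rfl
  · have h1 : ‖l‖ < 1 := by simpa using hl
    have h2 : ‖η / α‖ ≤ -ζ.re := by
      rw [norm_div, Complex.norm_real, Real.norm_of_nonneg hα.le, div_le_iff₀ hα]; linarith
    have h3 := (re_le_norm (l * (η / α))).trans_eq (norm_mul _ _)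
    have h4 : ‖l‖ * ‖η / α‖ ≤ ‖l‖ * -ζ.re := by gcongr
    rw [add_re]; nlinarith
  · rw [hd.deriv, smul_eq_mul]
    have : (α : ℂ) ≠ 0 := by exact_mod_cast hα.ne'
    field_simp

lemma dist_le {ζ ξ : ℂ} {α L : ℝ} (hα : 0 < α) (hL : 0 < L) (hζ : ζ.re ≤ -L) (hξ : ξ.re ≤ -L)
    (h : ‖ξ - ζ‖ ≤ α * L) : kobDist P (exp ζ) (exp ξ) ≤ ENNReal.ofReal α := by
  have hre : ∀ t ∈ Icc (0 : ℝ) 1, (ζ + t * (ξ - ζ)).re ≤ -L := fun t ht => by
    simp only [add_re, re_ofReal_mul, sub_re]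
    nlinarith [ht.1, ht.2]
  have hc : ContDiff ℝ 1 (fun t : ℝ => exp (ζ + t * (ξ - ζ))) :=
    Complex.contDiff_exp.comp (contDiff_const.add (ofRealCLM.contDiff.mul contDiff_const))
  refine iInf_le_of_le (fun t : ℝ => exp (ζ + t * (ξ - ζ))) <|
    iInf_le_of_le ⟨hc.continuous.continuousOn, ∅, fun a b _ _ _ _ => hc.contDiffOn⟩ <|
    iInf_le_of_le (fun t ht => exp_mem (by linarith [hre t ht])) <| iInf_le_of_le (by simp) <|
    iInf_le_of_le (by simp) ?_
  calc _ ≤ ∫⁻ _ in Icc (0 : ℝ) 1, ENNReal.ofReal α := by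
        refine setLIntegral_mono' measurableSet_Icc fun t ht => ?_
        have hd : HasDerivAt (fun t : ℝ => exp (ζ + t * (ξ - ζ)))
            (exp (ζ + t * (ξ - ζ)) * (ξ - ζ)) t := by
          simpa using ((((hasDerivAt_id (t : ℂ)).mul_const (ξ - ζ)).const_add ζ).cexp).comp_ofReal
        rw [hd.deriv]
        refine metric_le hα (by linarith [hre t ht]) (h.trans ?_)
        have := hre t ht
        gcongr; linarith
    _ = _ := by simp

/-- Schwarz lemma in the punctured disc -/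
lemma schwarz {φ : ℂ → ℂ} (hd : DifferentiableOn ℂ φ (ball 0 1)) (hm : MapsTo φ (ball 0 1) P) :
    ‖deriv φ 0‖ ≤ 2 * (‖φ 0‖ * -Real.log ‖φ 0‖) := by
  have h0 : (0 : ℂ) ∈ ball (0 : ℂ) 1 := mem_ball_self one_pos
  have hne : ∀ z ∈ ball (0 : ℂ) 1, φ z ≠ 0 := fun z hz => norm_pos_iff.1 (hm hz).1
  obtain ⟨ψ, hψ0, hψ⟩ := (((hd.deriv isOpen_ball).div hd hne).isExactOn_ball).with_val_at 0
    (log (φ 0))
  have hder : ∀ z ∈ ball (0 : ℂ) 1, HasDerivAt φ (deriv φ z) z := fun z hz =>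
    (hd.differentiableAt (isOpen_ball.mem_nhds hz)).hasDerivAt
  have hc : ∀ z ∈ ball (0 : ℂ) 1, φ z * exp (-ψ z) = φ 0 * exp (-ψ 0) := fun z hz => by
    refine (convex_ball (0 : ℂ) 1).is_const_of_fderivWithin_eq_zero (𝕜 := ℂ)
      (f := fun z => φ z * exp (-ψ z)) (fun w hw => ?_) (fun w hw => ?_) hz h0
    · exact ((hder w hw).mul (hψ w hw).neg.cexp).differentiableAt.differentiableWithinAt
    · rw [fderivWithin_of_isOpen isOpen_ball hw]
      have h1 := (hder w hw).mul (hψ w hw).neg.cexp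
      have h2 : deriv φ w * cexp (-ψ w) + φ w * (cexp (-ψ w) * -(deriv φ / φ) w) = 0 := by
        have := hne w hw
        simp only [Pi.div_apply]; field_simp; ring
      have h3 : HasDerivAt (fun z => φ z * exp (-ψ z)) 0 w := h1.congr_deriv h2
      simpa using h3.hasFDerivAt.fderiv
  have hre : ∀ z ∈ ball (0 : ℂ) 1, (ψ z).re = Real.log ‖φ z‖ := fun z hz => by
    have h1 := hc z hz
    rw [hψ0, exp_neg, exp_neg, exp_log (hne 0 h0), mul_inv_cancel₀ (hne 0 h0),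
      mul_inv_eq_one₀ (Complex.exp_ne_zero _)] at h1
    rw [h1, Complex.norm_exp, Real.log_exp]
  have hneg : ∀ z ∈ ball (0 : ℂ) 1, (ψ z).re < 0 := fun z hz => by
    rw [hre z hz]; exact Real.log_neg (hm hz).1 (hm hz).2
  set a := ψ 0 with ha
  have hden : ∀ z ∈ ball (0 : ℂ) 1, ψ z + (starRingEnd ℂ) a ≠ 0 := fun z hz h => by
    have := congrArg re h
    simp at this
    linarith [hneg z hz, hneg 0 h0]
  have hψd : DifferentiableOn ℂ ψ (ball 0 1) := fun z hz =>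
    (hψ z hz).differentiableAt.differentiableWithinAt
  have hg : ‖deriv (fun z => (ψ z - a) / (ψ z + (starRingEnd ℂ) a)) 0‖ ≤ 1 := by
    refine norm_deriv_le_one_of_mapsTo_ball ((hψd.sub_const _).div (hψd.add_const _) hden)
      (fun z hz => ?_) one_pos
    simp only [← ha, sub_self, zero_div, mem_closedBall_zero_iff, norm_div]
    refine div_le_one_of_le₀ ?_ (norm_nonneg _)
    refine (sq_le_sq₀ (norm_nonneg _) (norm_nonneg _)).1 ?_
    rw [Complex.sq_norm, Complex.sq_norm, normSq_apply, normSq_apply]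
    simp
    nlinarith [mul_pos_of_neg_of_neg (hneg z hz) (hneg 0 h0)]
  have hg' := ((hψ 0 h0).sub_const a).div ((hψ 0 h0).add_const ((starRingEnd ℂ) a)) (hden 0 h0)
  have e1 : a + (starRingEnd ℂ) a = ((2 * Real.log ‖φ 0‖ : ℝ) : ℂ) := by
    rw [add_conj, ha, hre 0 h0]
  have hl := Real.log_neg (hm h0).1 (hm h0).2
  have hp := (hm h0).1
  have e2 : deriv (fun z => (ψ z - a) / (ψ z + (starRingEnd ℂ) a)) 0
      = deriv φ 0 / φ 0 / ((2 * Real.log ‖φ 0‖ : ℝ) : ℂ) := by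
    refine (HasDerivAt.deriv (hg'.congr_deriv ?_))
    have := hden 0 h0
    rw [← ha] at this
    simp only [← ha, sub_self, zero_mul, sub_zero, Pi.div_apply, ← e1]
    field_simp
  rw [e2, norm_div, norm_div, Complex.norm_real, Real.norm_of_nonpos (by linarith),
    div_le_one (by linarith), div_le_iff₀ hp] at hg
  linarith

lemma le_metric {z v : ℂ} {c : ℝ} (hc : ∀ α : ℝ, 0 < α →
    ‖v‖ ≤ α * (2 * (‖z‖ * -Real.log ‖z‖)) → c ≤ α) : ENNReal.ofReal c ≤ kobMetric P z v := by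
  refine le_iInf fun φ => le_iInf fun hd => le_iInf fun hm => le_iInf fun h0 => le_iInf fun α =>
    le_iInf fun hα => le_iInf fun hv => ENNReal.ofReal_le_ofReal (hc α hα ?_)
  rw [← hv, ← h0, norm_smul, Complex.norm_real, Real.norm_of_nonneg hα.le]
  gcongr
  exact schwarz hd hm

lemma le_dist {F : Type} [NormedAddCommGroup F] [NormedSpace ℝ F] [CompleteSpace F]
    [SecondCountableTopology F] {H : ℂ → F}
    (hH : ∀ z ∈ P, DifferentiableAt ℝ H z ∧ ∀ v, ‖fderiv ℝ H z v‖ₑ ≤ kobMetric P z v) (z w : ℂ) :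
    ‖H w - H z‖ₑ ≤ kobDist P z w := by
  refine le_iInf fun γ => le_iInf fun ⟨hc, S, hS⟩ => le_iInf fun hm => le_iInf fun h0 =>
    le_iInf fun h1 => ?_
  have hγ : ∀ t ∈ Ioo (0 : ℝ) 1 \ (S : Set ℝ), DifferentiableAt ℝ γ t := fun t ht => by
    have h2 : Ioo (0 : ℝ) 1 \ (S : Set ℝ) ∈ 𝓝 t :=
      (isOpen_Ioo.sdiff S.finite_toSet.isClosed).mem_nhds ht
    obtain ⟨a, b, hab, h3⟩ := mem_nhds_iff_exists_Ioo_subset.1 h2
    have ha : 0 ≤ a := le_of_forall_gt_imp_ge_of_dense fun c hc => by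
      rcases lt_or_ge c b with h | h
      · exact (h3 ⟨hc, h⟩).1.1.le
      · linarith [hab.2, ht.1.1]
    have hb : b ≤ 1 := le_of_forall_lt_imp_le_of_dense fun c hc => by
      rcases lt_or_ge a c with h | h
      · exact (h3 ⟨h, hc⟩).1.2.le
      · linarith [hab.1, ht.1.2]
    exact ((hS a b ha (hab.1.trans hab.2) hb fun s hs h => (h3 h).2 hs).differentiableOn
      one_ne_zero).differentiableAt (Icc_mem_nhds hab.1 hab.2)
  have hd : ∀ t ∈ Ioo (0 : ℝ) 1 \ (S : Set ℝ),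
      HasDerivAt (H ∘ γ) (fderiv ℝ H (γ t) (deriv γ t)) t := fun t ht =>
    (hH _ (hm (Ioo_subset_Icc_self ht.1))).1.hasFDerivAt.comp_hasDerivAt t (hγ t ht).hasDerivAt
  have hle : ∫⁻ t in Ioc (0 : ℝ) 1, ‖deriv (H ∘ γ) t‖ₑ
      ≤ ∫⁻ t in Icc (0 : ℝ) 1, kobMetric P (γ t) (deriv γ t) := by
    rw [← Measure.restrict_congr_set Ioo_ae_eq_Ioc, ← Measure.restrict_congr_set Ioo_ae_eq_Icc]
    refine lintegral_mono_ae ?_
    have h2 : ∀ᵐ t : ℝ, t ∉ (S : Set ℝ) := S.finite_toSet.countable.ae_notMem _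
    filter_upwards [ae_restrict_mem measurableSet_Ioo, ae_restrict_of_ae h2] with t h3 h4
    rw [(hd t ⟨h3, h4⟩).deriv]
    exact (hH _ (hm (Ioo_subset_Icc_self h3))).2 _
  rcases eq_or_ne (∫⁻ t in Icc (0 : ℝ) 1, kobMetric P (γ t) (deriv γ t)) ⊤ with ht | ht
  · rw [ht]; exact le_top
  have hi : IntervalIntegrable (deriv (H ∘ γ)) volume 0 1 := by
    rw [intervalIntegrable_iff_integrableOn_Ioc_of_le zero_le_one]
    exact ⟨aestronglyMeasurable_deriv _ _, hle.trans_lt ht.lt_top⟩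
  have hcont : ContinuousOn (H ∘ γ) (Icc 0 1) := fun t ht =>
    (hH _ (hm ht)).1.continuousAt.comp_continuousWithinAt (hc t ht)
  have := integral_eq_of_hasDerivAt_off_countable_of_le (H ∘ γ) (deriv (H ∘ γ)) zero_le_one
    S.finite_toSet.countable hcont (fun t ht => (hd t ht).differentiableAt.hasDerivAt) hi
  simp only [Function.comp_apply, h0, h1] at this
  rw [← this, intervalIntegral.integral_of_le zero_le_one]
  exact (enorm_integral_le_lintegral_enorm _).trans hle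

lemma euclid_le (z w : ℂ) : ‖(1 / 2 : ℝ) • w - (1 / 2 : ℝ) • z‖ₑ ≤ kobDist P z w := by
  refine le_dist (H := fun z => (1 / 2 : ℝ) • z) (fun z hz => ⟨by fun_prop, fun v => ?_⟩) z w
  have h1 : fderiv ℝ (fun z : ℂ => (1 / 2 : ℝ) • z) z v = (1 / 2 : ℝ) • v := by
    erw [((hasFDerivAt_id z).const_smul (1 / 2 : ℝ)).fderiv]; simp
  rw [h1, ← ofReal_norm]
  refine le_metric fun α hα h => ?_
  have h2 : ‖z‖ * -Real.log ‖z‖ ≤ 1 := by
    have := Real.abs_log_mul_self_lt ‖z‖ hz.1 hz.2.le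
    linarith [neg_abs_le (Real.log ‖z‖ * ‖z‖)]
  rw [norm_smul, Real.norm_of_nonneg (by norm_num)]
  nlinarith

lemma loglog_le (z w : ℂ) : ‖(1 / 2 : ℝ) * Real.log (-Real.log ‖w‖)
    - (1 / 2 : ℝ) * Real.log (-Real.log ‖z‖)‖ₑ ≤ kobDist P z w := by
  refine le_dist (H := fun z => (1 / 2 : ℝ) * Real.log (-Real.log ‖z‖)) (fun z hz => ?_) z w
  have hl := Real.log_neg hz.1 hz.2
  have hn : DifferentiableAt ℝ (fun z : ℂ => ‖z‖) z :=
    differentiableAt_id.norm ℝ (norm_pos_iff.1 hz.1)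
  have h1 := ((hn.hasFDerivAt.log hz.1.ne').neg.log (by simpa using hl.ne)).const_mul (1 / 2 : ℝ)
  refine ⟨h1.differentiableAt, fun v => ?_⟩
  have h2 : ‖fderiv ℝ (fun z : ℂ => ‖z‖) z v‖ ≤ ‖v‖ := by
    have := norm_fderiv_le_of_lipschitz ℝ (x₀ := z) (lipschitzWith_one_norm (E := ℂ))
    exact ((fderiv ℝ (fun z : ℂ => ‖z‖) z).le_opNorm v).trans
      (mul_le_of_le_one_left (norm_nonneg _) (by simpa using this))
  have h3 : fderiv ℝ (fun z : ℂ => (1 / 2 : ℝ) * Real.log (-Real.log ‖z‖)) z v =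
      -(fderiv ℝ (fun z : ℂ => ‖z‖) z v) / (2 * (‖z‖ * -Real.log ‖z‖)) := by
    have := hz.1
    erw [h1.fderiv]
    simp
    field_simp
  rw [h3, ← ofReal_norm]
  refine le_metric fun α hα h => ?_
  have h4 : 0 < 2 * (‖z‖ * -Real.log ‖z‖) := by have := hz.1; nlinarith
  rw [norm_div, norm_neg, Real.norm_of_nonneg h4.le, div_le_iff₀ h4]
  exact h2.trans h

lemma cauchy_of {F : Type} [NormedAddCommGroup F] {u : ℕ → ℂ} {H : ℂ → F}
    (hH : ∀ z w, ‖H w - H z‖ₑ ≤ kobDist P z w)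
    (hu : ∀ ε : ℝ, 0 < ε → ∃ N, ∀ m ≥ N, ∀ n ≥ N, kobDist P (u m) (u n) < ENNReal.ofReal ε) :
    CauchySeq fun n => H (u n) := by
  refine Metric.cauchySeq_iff.2 fun ε hε => ?_
  obtain ⟨N, hN⟩ := hu ε hε
  refine ⟨N, fun m hm n hn => ?_⟩
  have := (hH _ _).trans_lt (hN n hn m hm)
  rwa [← ofReal_norm, ENNReal.ofReal_lt_ofReal_iff hε, ← dist_eq_norm] at this

lemma complete (u : ℕ → ℂ) (hP : ∀ n, u n ∈ P)
    (hu : ∀ ε : ℝ, 0 < ε → ∃ N, ∀ m ≥ N, ∀ n ≥ N, kobDist P (u m) (u n) < ENNReal.ofReal ε) :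
    ∃ z ∈ P, Tendsto (fun n => kobDist P (u n) z) atTop (𝓝 0) := by
  obtain ⟨z', hz'⟩ := cauchySeq_tendsto_of_complete (cauchy_of euclid_le hu)
  obtain ⟨l, hl⟩ := cauchySeq_tendsto_of_complete (cauchy_of loglog_le hu)
  have hz : Tendsto u atTop (𝓝 ((2 : ℝ) • z')) := by
    simpa [smul_smul] using hz'.const_smul (2 : ℝ)
  set z := (2 : ℝ) • z'
  have h1 : Tendsto (fun n => ‖u n‖) atTop (𝓝 (Real.exp (-Real.exp (2 * l)))) := by
    refine ((hl.const_mul 2).rexp.neg.rexp).congr fun n => ?_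
    have := Real.log_neg (hP n).1 (hP n).2
    rw [← mul_assoc, show (2 : ℝ) * (1 / 2) = 1 by norm_num, one_mul,
      Real.exp_log (by linarith), neg_neg, Real.exp_log (hP n).1]
  have h2 : ‖z‖ = Real.exp (-Real.exp (2 * l)) := tendsto_nhds_unique hz.norm h1
  have hzP : z ∈ P := ⟨h2 ▸ Real.exp_pos _,
    h2 ▸ Real.exp_lt_one_iff.2 (neg_lt_zero.2 (Real.exp_pos _))⟩
  have hz0 : z ≠ 0 := norm_pos_iff.1 hzP.1
  refine ⟨z, hzP, ENNReal.tendsto_nhds_zero.2 fun ε hε => ?_⟩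
  obtain ⟨α, hα, hαε⟩ : ∃ α : ℝ, 0 < α ∧ ENNReal.ofReal α ≤ ε := by
    rcases eq_or_ne ε ⊤ with h | h
    · exact ⟨1, one_pos, h ▸ le_top⟩
    · exact ⟨ε.toReal, ENNReal.toReal_pos hε.ne' h, (ENNReal.ofReal_toReal h).le⟩
  have hL : 0 < -Real.log ‖z‖ / 2 := by linarith [Real.log_neg hzP.1 hzP.2]
  have h3 : Tendsto (fun n => log (u n / z)) atTop (𝓝 0) := by
    have : Tendsto (fun n => u n / z) atTop (𝓝 1) := by simpa [hz0] using hz.div_const z
    simpa using this.clog (by simp)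
  filter_upwards [h3.norm.eventually (ge_mem_nhds (by simpa using mul_pos hα hL :
      ‖(0 : ℂ)‖ < α * (-Real.log ‖z‖ / 2))),
    h3.norm.eventually (ge_mem_nhds (by simpa using hL : ‖(0 : ℂ)‖ < -Real.log ‖z‖ / 2))]
    with n hn hn'
  have hu0 : u n ≠ 0 := norm_pos_iff.1 (hP n).1
  have := dist_le (ζ := log z + log (u n / z)) (ξ := log z) hα hL
    (by rw [add_re, log_re z]; linarith [re_le_norm (log (u n / z))])
    (by rw [log_re]; linarith) (by simpa using hn)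
  rw [exp_add, exp_log hz0, exp_log (div_ne_zero hu0 hz0), mul_div_cancel₀ _ hz0] at this
  exact this.trans hαε

lemma annulus {r N : ℝ} (hr : 0 < r) (hN : 1 ≤ N) :
    ∃ t : ℝ, 0 < t ∧ t < 1 ∧ closedBall (0 : ℂ) (N * t) \ ball 0 t ⊆ kobBall P (t : ℂ) r := by
  set L := (Real.log N + Real.pi) / (r / 2) with hL
  have hlN := Real.log_nonneg hN
  have hL0 : 0 < L := by have := Real.pi_pos; positivity
  set t := Real.exp (-L - Real.log N) with ht
  have ht0 : 0 < t := Real.exp_pos _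
  have hNt : N * t = Real.exp (-L) := by
    rw [ht, Real.exp_sub, Real.exp_log (by linarith)]; field_simp
  refine ⟨t, ht0, Real.exp_lt_one_iff.2 (by linarith), fun w ⟨h1, h2⟩ => ?_⟩
  simp only [mem_closedBall_zero_iff, mem_ball_zero_iff, not_lt] at h1 h2
  have hw : 0 < ‖w‖ := ht0.trans_le h2
  have h3 : Real.log ‖w‖ ≤ -L := by rw [Real.log_le_iff_le_exp hw, ← hNt]; exact h1
  have h4 : -L - Real.log N ≤ Real.log ‖w‖ := by rw [Real.le_log_iff_exp_le hw]; exact h2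
  have hw0 : w ≠ 0 := norm_pos_iff.1 hw
  have h5 := dist_le (ζ := ((-L - Real.log N : ℝ) : ℂ)) (ξ := log w) (half_pos hr) hL0
    (by rw [ofReal_re]; linarith) (by rwa [log_re]) (by
      refine (norm_le_abs_re_add_abs_im _).trans ?_
      rw [sub_re, sub_im, ofReal_re, ofReal_im, sub_zero, log_re, log_im,
        abs_of_nonneg (by linarith), hL, mul_div_cancel₀ _ (half_pos hr).ne']
      linarith [abs_arg_le_pi w])
  rw [exp_log hw0, ← ofReal_exp] at h5
  refine ⟨⟨hw, ?_⟩, h5.trans_lt ((ENNReal.ofReal_lt_ofReal_iff hr).2 (half_lt_self hr))⟩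
  exact h1.trans_lt (hNt ▸ Real.exp_lt_one_iff.2 (by linarith))

lemma integral_disc {p ρ : ℝ} (hp : p < 2) (hρ : 0 < ρ) :
    ∫⁻ w : ℂ, (ball (0 : ℂ) ρ).indicator (fun w => ENNReal.ofReal (‖w⁻¹‖ ^ p)) w
      ≤ ENNReal.ofReal (ρ ^ (2 - p) / (2 - p) * (2 * Real.pi)) := by
  rw [← Complex.lintegral_comp_polarCoord_symm, polarCoord_target]
  have hi : IntegrableOn (fun x : ℝ => x ^ (1 - p)) (Ioc 0 ρ) :=
    (intervalIntegral.intervalIntegrable_rpow' (a := 0) (b := ρ) (by linarith)).1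
  calc _ ≤ ∫⁻ q in Ioi (0 : ℝ) ×ˢ Ioo (-Real.pi) Real.pi,
        (Ioc (0 : ℝ) ρ).indicator (fun x => ENNReal.ofReal (x ^ (1 - p))) q.1 * 1 := by
        refine setLIntegral_mono' (measurableSet_Ioi.prod measurableSet_Ioo) fun q hq => ?_
        have h0 : 0 < q.1 := hq.1
        have hn : ‖Complex.polarCoord.symm q‖ = q.1 := by simp [abs_of_pos h0]
        by_cases h : Complex.polarCoord.symm q ∈ ball (0 : ℂ) ρ
        · have h' : q.1 ∈ Ioc (0 : ℝ) ρ := ⟨h0, by rw [← hn]; exact (mem_ball_zero_iff.1 h).le⟩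
          rw [indicator_of_mem h, indicator_of_mem h', norm_inv, hn, smul_eq_mul, mul_one,
            ← ENNReal.ofReal_mul h0.le, Real.rpow_sub h0, Real.rpow_one, Real.inv_rpow h0.le,
            div_eq_mul_inv]
        · rw [indicator_of_notMem h]; simp
    _ = (∫⁻ x in Ioi (0 : ℝ), (Ioc (0 : ℝ) ρ).indicator
          (fun x => ENNReal.ofReal (x ^ (1 - p))) x) * ∫⁻ _ in Ioo (-Real.pi) Real.pi, 1 := by
        rw [Measure.volume_eq_prod, ← Measure.prod_restrict]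
        exact lintegral_prod_mul (f := fun x => (Ioc (0 : ℝ) ρ).indicator
          (fun x => ENNReal.ofReal (x ^ (1 - p))) x) (g := fun _ => 1)
          (Measurable.aemeasurable (Measurable.indicator (by fun_prop) measurableSet_Ioc))
          aemeasurable_const
    _ ≤ _ := by
        rw [ENNReal.ofReal_mul (by have := sub_pos.2 hp; positivity)]
        gcongr
        · refine (setLIntegral_le_lintegral _ _).trans_eq ?_
          rw [lintegral_indicator measurableSet_Ioc, ← ofReal_integral_eq_lintegral_ofReal hi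
            ((ae_restrict_mem measurableSet_Ioc).mono fun x hx => Real.rpow_nonneg hx.1.le _),
            ← intervalIntegral.integral_of_le hρ.le, integral_rpow (Or.inl (by linarith)),
            Real.zero_rpow (by linarith), sub_zero, show 1 - p + 1 = 2 - p by ring]
        · simp [two_mul]

/-- The punctured unit disc is a bounded, Kobayashi-complete domain in `ℂ` on which, for every
`0 < p < 2`, every radius `r > 0` and every constant `C`, the sub-mean value inequality over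
Kobayashi balls fails. -/
theorem result : ∃ Ω : Set ℂ, IsOpen Ω ∧ IsConnected Ω ∧ Bornology.IsBounded Ω ∧
    (∀ u : ℕ → ℂ, (∀ n, u n ∈ Ω) →
      (∀ ε : ℝ, 0 < ε → ∃ N, ∀ m ≥ N, ∀ n ≥ N, kobDist Ω (u m) (u n) < ENNReal.ofReal ε) →
      ∃ z ∈ Ω, Tendsto (fun n => kobDist Ω (u n) z) atTop (𝓝 0)) ∧
    ∀ p : ℝ, 0 < p → p < 2 → ∀ r : ℝ, 0 < r → ∀ C : ℝ, 0 < C →
      ∃ f : ℂ → ℂ, DifferentiableOn ℂ f Ω ∧ ∃ z ∈ Ω,
        ENNReal.ofReal C / volume (kobBall Ω z r) *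
          ∫⁻ w in kobBall Ω z r, ENNReal.ofReal (‖f w‖ ^ p) < ENNReal.ofReal (‖f z‖ ^ p) := by
  have hP : P = ball 0 1 \ {0} := by ext z; simp [P, and_comm]
  refine ⟨P, hP ▸ isOpen_ball.sdiff isClosed_singleton, ?_,
    hP ▸ isBounded_ball.subset sdiff_subset, complete, fun p hp hp2 r hr C hC => ?_⟩
  · have : P = exp '' {ζ | ζ.re < 0} := by
      refine Subset.antisymm (fun z hz => ⟨log z, ?_, exp_log (norm_pos_iff.1 hz.1)⟩) ?_
      · simpa [log_re] using Real.log_neg hz.1 hz.2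
      · rintro _ ⟨ζ, h, rfl⟩; exact exp_mem h
    rw [this]
    exact ((convex_halfSpace_re_lt 0).isConnected ⟨-1, by simp⟩).image _
      continuous_exp.continuousOn
  set M := (2 * C) ^ (1 / p) with hM
  have hM0 : 0 < M := by positivity
  have hMp : M ^ p = 2 * C := by
    rw [hM, ← Real.rpow_mul (by positivity), one_div_mul_cancel hp.ne', Real.rpow_one]
  set K := M ^ (2 - p) / (2 - p) * 2 with hK
  have hK0 : 0 < K := by have := sub_pos.2 hp2; positivity
  obtain ⟨t, ht0, ht1, hsub⟩ := annulus hr (N := 2 * C * K + 2) (by nlinarith [mul_pos hC hK0])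
  have hnt : ‖(t : ℂ)‖ = t := by simp [ht0.le]
  refine ⟨fun w => w⁻¹, differentiableOn_id.inv fun w hw => norm_pos_iff.1 hw.1, t,
    ⟨by rwa [hnt], by rwa [hnt]⟩, ?_⟩
  set B := kobBall P (t : ℂ) r
  have hBfin : volume B ≠ ⊤ :=
    ((measure_mono (t := ball 0 1) fun w hw => by simpa using hw.1.2).trans_lt
      measure_ball_lt_top).ne
  obtain ⟨V, hV0, hV⟩ : ∃ V : ℝ, 0 ≤ V ∧ volume B = ENNReal.ofReal V :=
    ⟨_, ENNReal.toReal_nonneg, (ENNReal.ofReal_toReal hBfin).symm⟩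
  have hVl : ((2 * C * K + 2) * t) ^ 2 * Real.pi ≤ V + t ^ 2 * Real.pi := by
    have h1 : volume (closedBall (0 : ℂ) ((2 * C * K + 2) * t)) ≤ volume B + volume (ball (0 : ℂ) t) :=
      (measure_mono fun w hw => by
        by_cases h : w ∈ ball (0 : ℂ) t
        · exact Or.inr h
        · exact Or.inl (hsub ⟨hw, h⟩)).trans (measure_union_le _ _)
    have hpi : ((NNReal.pi : NNReal) : ℝ≥0∞) = ENNReal.ofReal Real.pi := by
      rw [← NNReal.coe_real_pi, ENNReal.ofReal_coe_nnreal]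
    rw [Complex.volume_closedBall, Complex.volume_ball, hV, hpi,
      ← ENNReal.ofReal_pow (by positivity), ← ENNReal.ofReal_pow ht0.le,
      ← ENNReal.ofReal_mul (by positivity), ← ENNReal.ofReal_mul (by positivity),
      ← ENNReal.ofReal_add hV0 (by positivity), ENNReal.ofReal_le_ofReal_iff (by positivity)] at h1
    exact h1
  have hCK := mul_pos hC hK0
  have htp : 0 < t ^ 2 * Real.pi := by positivity
  have hVl' : 2 * C * K * (t ^ 2 * Real.pi) < V := by nlinarith [mul_pos hCK hCK]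
  have hVp : 0 < V := lt_trans (by positivity) hVl'
  have hint : ∫⁻ w in B, ENNReal.ofReal (‖w⁻¹‖ ^ p) ≤ ENNReal.ofReal (((M * t)⁻¹) ^ p * V
      + (M * t) ^ (2 - p) / (2 - p) * (2 * Real.pi)) := by
    have := sub_pos.2 hp2
    calc _ ≤ ∫⁻ w in B, (ENNReal.ofReal (((M * t)⁻¹) ^ p) +
          (ball (0 : ℂ) (M * t)).indicator (fun w => ENNReal.ofReal (‖w⁻¹‖ ^ p)) w) := by
          refine lintegral_mono fun w => ?_
          by_cases h : w ∈ ball (0 : ℂ) (M * t)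
          · simp only [indicator_of_mem h]; exact le_add_self
          · refine le_add_right (ENNReal.ofReal_le_ofReal ?_)
            rw [norm_inv]
            have h' : M * t ≤ ‖w‖ := by simpa using h
            gcongr
      _ ≤ _ := by
          rw [lintegral_add_left measurable_const, setLIntegral_const, hV,
            ENNReal.ofReal_add (by positivity) (by positivity), ENNReal.ofReal_mul (by positivity)]
          gcongr
          exact (setLIntegral_le_lintegral _ _).trans (integral_disc hp2 (by positivity))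
  have h2 := sub_pos.2 hp2
  refine (mul_le_mul_right hint _).trans_lt ?_
  rw [hV, ← ENNReal.ofReal_div_of_pos hVp, ← ENNReal.ofReal_mul (by positivity),
    ENNReal.ofReal_lt_ofReal_iff (by rw [norm_inv, hnt]; positivity), norm_inv, hnt,
    Real.inv_rpow (by positivity), Real.inv_rpow ht0.le, Real.mul_rpow hM0.le ht0.le,
    Real.mul_rpow hM0.le ht0.le, hMp, Real.rpow_sub ht0, Real.rpow_two]
  have h3 : 0 < t ^ p := by positivity
  have h4 : C / V * ((2 * C * t ^ p)⁻¹ * V + M ^ (2 - p) * (t ^ 2 / t ^ p) / (2 - p) * (2 * Real.pi))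
      = (t ^ p)⁻¹ * (1 / 2 + C * K * (t ^ 2 * Real.pi) / V) := by
    rw [hK]; field_simp
  rw [h4]
  refine mul_lt_of_lt_one_right (by positivity) ?_
  have : C * K * (t ^ 2 * Real.pi) / V < 1 / 2 := by rw [div_lt_iff₀ hVp]; linarith
  linarith

end Pool.Agent.Results.MP_8e2100_an.Punctured
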